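import Pool.Agent.helper27.SY.Spec

/-!
# Project sy: REX, the remainder as an exponential sum over reduced fractions
-/

set_option autoImplicit false

open Finset ArithmeticFunction

namespace Pool.Agent.SY

open Pool.Agent.SX Pool.Agent.helper85.BVP

/-- reduction of the fractions `h / d` -/
theorem REX_reindex (D d : ℕ) (hd : 1 ≤ d) (hdD : d ≤ D) (Φ : ℕ → ℂ) :
    ∑ h ∈ Ico 1 d, Φ h = ∑ j ∈ (JJ D).filter (fun j => j.1 ∣ d), Φ (j.2 * (d / j.1)) := by
  refine Finset.sum_nbij' (fun h => (d / Nat.gcd h d, h / Nat.gcd h d))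
    (fun j => j.2 * (d / j.1)) ?_ ?_ ?_ ?_ ?_
  · intro h hh
    rw [mem_Ico] at hh
    have hg : 0 < Nat.gcd h d := Nat.gcd_pos_of_pos_left d (by omega)
    have hgh : Nat.gcd h d ≤ h := Nat.le_of_dvd (by omega) (Nat.gcd_dvd_left h d)
    have hgd : Nat.gcd h d ∣ d := Nat.gcd_dvd_right h d
    have hgh' : Nat.gcd h d ∣ h := Nat.gcd_dvd_left h d
    have h1 : 1 ≤ h / Nat.gcd h d := Nat.div_pos hgh hg
    have h2 : h / Nat.gcd h d < d / Nat.gcd h d :=
      Nat.div_lt_div_of_lt_of_dvd hgd hh.2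
    have h3 : d / Nat.gcd h d ≤ d := Nat.div_le_self _ _
    rw [mem_filter, JJ, mem_filter, mem_product, mem_Icc, mem_range]
    refine ⟨⟨⟨⟨?_, ?_⟩, ?_⟩, h1, h2, ?_⟩, Nat.div_dvd_of_dvd hgd⟩
    · show 2 ≤ d / Nat.gcd h d
      omega
    · show d / Nat.gcd h d ≤ D
      omega
    · show h / Nat.gcd h d < D
      omega
    · exact Nat.coprime_div_gcd_div_gcd hg
  · intro j hj
    rw [mem_filter, JJ, mem_filter, mem_product, mem_Icc, mem_range] at hj
    obtain ⟨⟨⟨⟨h1, h2⟩, h3⟩, h4, h5, h6⟩, h7⟩ := hj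
    obtain ⟨m, hm⟩ := h7
    have hm0 : 0 < m := by
      rcases Nat.eq_zero_or_pos m with h | h
      · rw [h, mul_zero] at hm
        omega
      · exact h
    have h8 : d / j.1 = m := by rw [hm, Nat.mul_div_cancel_left _ (by omega)]
    rw [mem_Ico, h8]
    refine ⟨Nat.mul_pos (by omega) hm0, ?_⟩
    rw [hm]
    exact Nat.mul_lt_mul_of_pos_right h5 hm0
  · intro h hh
    rw [mem_Ico] at hh
    show h / Nat.gcd h d * (d / (d / Nat.gcd h d)) = h
    rw [Nat.div_div_self (Nat.gcd_dvd_right h d) (by omega)]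
    exact Nat.div_mul_cancel (Nat.gcd_dvd_left h d)
  · intro j hj
    rw [mem_filter, JJ, mem_filter, mem_product, mem_Icc, mem_range] at hj
    obtain ⟨⟨⟨⟨h1, h2⟩, h3⟩, h4, h5, h6⟩, h7⟩ := hj
    obtain ⟨m, hm⟩ := h7
    have hm0 : 0 < m := by
      rcases Nat.eq_zero_or_pos m with h | h
      · rw [h, mul_zero] at hm
        omega
      · exact h
    have h8 : d / j.1 = m := by rw [hm, Nat.mul_div_cancel_left _ (by omega)]
    have h9 : Nat.gcd (j.2 * m) d = m := by
      rw [hm, Nat.gcd_mul_right, h6, one_mul]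
    show (d / Nat.gcd (j.2 * (d / j.1)) d, j.2 * (d / j.1) / Nat.gcd (j.2 * (d / j.1)) d) = j
    rw [h8, h9]
    refine Prod.ext ?_ ?_
    · show d / m = j.1
      rw [hm, Nat.mul_div_cancel _ hm0]
    · show j.2 * m / m = j.2
      rw [Nat.mul_div_cancel _ hm0]
  · intro h hh
    rw [mem_Ico] at hh
    show Φ h = Φ (h / Nat.gcd h d * (d / (d / Nat.gcd h d)))
    rw [Nat.div_div_self (Nat.gcd_dvd_right h d) (by omega),
      Nat.div_mul_cancel (Nat.gcd_dvd_left h d)]

/-- `g F = 2 ^ |F| / ∏ F` -/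
theorem REX_g (F : Finset ℕ) : g F = 2 ^ F.card / ((∏ p ∈ F, p : ℕ) : ℝ) := by
  unfold g
  rw [Finset.prod_div_distrib, Finset.prod_const]
  push_cast
  rfl

/-- the divisor sum -/
theorem REX_div (P : Finset ℕ) (hP : ∀ p ∈ P, p.Prime ∧ 7 ≤ p) (D q : ℕ) (hq : 1 ≤ q)
    (S : Finset (Finset ℕ)) (hS : ∀ F ∈ S, F ⊆ P ∧ ∏ p ∈ F, p ≤ D ∧ q ∣ ∏ p ∈ F, p) :
    ∑ F ∈ S, (1 : ℝ) / ((∏ p ∈ F, p : ℕ) : ℝ) ≤ (1 + Real.log D) / q := by
  have hq0 : (0 : ℝ) < q := by exact_mod_cast hq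
  have hpos : ∀ F ∈ S, 0 < ∏ p ∈ F, p := fun F hF =>
    Finset.prod_pos fun p hp => ((hP p ((hS F hF).1 hp)).1).pos
  have hinj : Set.InjOn (fun F : Finset ℕ => (∏ p ∈ F, p) / q) (S : Set (Finset ℕ)) := by
    intro F hF F' hF' h
    rw [Finset.mem_coe] at hF hF'
    obtain ⟨a1, -, a3⟩ := hS F hF
    obtain ⟨b1, -, b3⟩ := hS F' hF'
    have h1 : ∏ p ∈ F, p = ∏ p ∈ F', p := by
      have h2 : (∏ p ∈ F, p) / q * q = (∏ p ∈ F', p) / q * q := by
        have : (∏ p ∈ F, p) / q = (∏ p ∈ F', p) / q := h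
        rw [this]
      rwa [Nat.div_mul_cancel a3, Nat.div_mul_cancel b3] at h2
    have h3 := Nat.primeFactors_prod (s := F) fun p hp => (hP p (a1 hp)).1
    have h4 := Nat.primeFactors_prod (s := F') fun p hp => (hP p (b1 hp)).1
    rw [← h3, ← h4, h1]
  calc ∑ F ∈ S, (1 : ℝ) / ((∏ p ∈ F, p : ℕ) : ℝ)
      = ∑ F ∈ S, (fun m : ℕ => (1 : ℝ) / (q * m)) ((∏ p ∈ F, p) / q) := by
        refine Finset.sum_congr rfl fun F hF => ?_
        show _ = (1 : ℝ) / (q * (((∏ p ∈ F, p) / q : ℕ) : ℝ))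
        obtain ⟨m, hm⟩ := (hS F hF).2.2
        rw [hm, Nat.mul_div_cancel_left _ (by omega)]
        push_cast
        rfl
    _ = ∑ m ∈ S.image (fun F => (∏ p ∈ F, p) / q), (1 : ℝ) / (q * m) :=
        (Finset.sum_image (f := fun m : ℕ => (1 : ℝ) / (q * m)) hinj).symm
    _ ≤ ∑ m ∈ Icc 1 D, (1 : ℝ) / (q * m) := by
        refine Finset.sum_le_sum_of_subset_of_nonneg ?_ fun m _ _ => by positivity
        intro m hm
        rw [Finset.mem_image] at hm
        obtain ⟨F, hF, rfl⟩ := hm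
        obtain ⟨a1, a2, a3⟩ := hS F hF
        rw [mem_Icc]
        exact ⟨Nat.div_pos (Nat.le_of_dvd (hpos F hF) a3) (by omega),
          (Nat.div_le_self _ _).trans a2⟩
    _ = (∑ m ∈ Icc 1 D, ((m : ℝ))⁻¹) / q := by
        rw [Finset.sum_div]
        refine Finset.sum_congr rfl fun m _ => ?_
        rw [one_div, mul_inv, div_eq_mul_inv, mul_comm]
    _ ≤ (1 + Real.log D) / q := by
        refine div_le_div_of_nonneg_right ?_ hq0.le
        have h := harmonic_le_one_add_log D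
        rw [harmonic_eq_sum_Icc] at h
        push_cast at h
        exact h

theorem REX (hROOT : ROOT_stmt) (hFOU : FOU_stmt) : REX_stmt := by
  classical
  intro C P D K t hD ht hP hC1 hC2 hC3
  have hex : ∀ F : Finset ℕ, ∃ R : Finset ℕ, (∀ p ∈ F, p.Prime ∧ 7 ≤ p) →
      (R ⊆ range (∏ p ∈ F, p) ∧ R.card = 2 ^ F.card ∧
        ∀ k : ℕ, (∀ p ∈ F, p ∣ (30 * k + 1) * (30 * k + 7)) ↔ k % (∏ p ∈ F, p) ∈ R) := by
    intro F
    by_cases hF : ∀ p ∈ F, p.Prime ∧ 7 ≤ p
    · obtain ⟨R, hR⟩ := hROOT.1 F hF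
      exact ⟨R, fun _ => hR⟩
    · exact ⟨∅, fun h => absurd h hF⟩
  choose R hR using hex
  set d : Finset ℕ → ℕ := fun F => ∏ p ∈ F, p with hd
  set κ : Finset ℕ → ℕ → ℂ := fun F h => ∑ r ∈ R F, ex (-((h : ℝ) * r / (d F : ℝ))) with hκ
  have hFP : ∀ F ⊆ P, ∀ p ∈ F, p.Prime ∧ 7 ≤ p := fun F hF p hp => hP p (hF hp)
  have hd1 : ∀ F ⊆ P, 1 ≤ d F := fun F hF =>
    Finset.prod_pos fun p hp => ((hFP F hF p hp).1).pos
  have hκn : ∀ F, F ⊆ P → ∀ h, ‖κ F h‖ ≤ 2 ^ F.card := by
    intro F hF h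
    calc ‖κ F h‖ ≤ ∑ r ∈ R F, ‖ex (-((h : ℝ) * r / (d F : ℝ)))‖ := norm_sum_le _ _
      _ = (R F).card := by
          rw [Finset.sum_congr rfl fun r _ => norm_ex _, Finset.sum_const, nsmul_eq_mul, mul_one]
      _ = 2 ^ F.card := by
          rw [(hR F (hFP F hF)).2.1]
          push_cast
          rfl
  -- the formula for one set
  have hrr : ∀ (y : ℕ), ∀ F ⊆ P, ((rr K y F : ℝ) : ℂ) = 1 / (d F : ℂ) *
      ∑ h ∈ Ico 1 (d F), κ F h * GG K ((h : ℝ) / d F) * ex ((y : ℝ) * ((h : ℝ) / d F)) := by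
    intro y F hF
    obtain ⟨r1, r2, r3⟩ := hR F (hFP F hF)
    have h1 := hFOU (d F) (R F) K y (hd1 F hF) r1
    have h2 : cnt K y F = ((Ioc y (y + K)).filter fun k => k % d F ∈ R F).card := by
      unfold cnt
      congr 1
      exact Finset.filter_congr fun k _ => r3 k
    have h3 : ((rr K y F : ℝ) : ℂ) =
        ((((Ioc y (y + K)).filter fun k => k % d F ∈ R F).card : ℕ) : ℂ) -
          (K : ℂ) * (R F).card / (d F : ℕ) := by
      have h4 : (∏ p ∈ F, p) = d F := rfl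
      unfold rr
      rw [REX_g, h2, r2, h4]
      push_cast
      ring
    rw [h3, h1]
  refine ⟨fun j => GG K (fr j) * ∑ F ∈ P.powerset,
    if j.1 ∣ d F then (C F : ℂ) / (d F : ℂ) * κ F (j.2 * (d F / j.1)) else 0, ?_, ?_⟩
  · -- the bound
    intro j hj
    rw [JJ, mem_filter, mem_product, mem_Icc, mem_range] at hj
    obtain ⟨⟨⟨j1, j2⟩, j3⟩, j4, j5, j6⟩ := hj
    show ‖GG K (fr j) * _‖ ≤ _
    rw [norm_mul, mul_comm]
    refine mul_le_mul_of_nonneg_right ?_ (norm_nonneg _)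
    set S : Finset (Finset ℕ) := P.powerset.filter fun F => C F ≠ 0 ∧ j.1 ∣ d F with hS
    calc ‖∑ F ∈ P.powerset,
          if j.1 ∣ d F then (C F : ℂ) / (d F : ℂ) * κ F (j.2 * (d F / j.1)) else 0‖
        = ‖∑ F ∈ S, (C F : ℂ) / (d F : ℂ) * κ F (j.2 * (d F / j.1))‖ := by
          congr 1
          rw [hS, Finset.sum_filter]
          refine Finset.sum_congr rfl fun F _ => ?_
          by_cases h1 : j.1 ∣ d F
          · by_cases h2 : C F = 0
            · rw [if_pos h1, if_neg (fun h => h.1 h2), h2]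
              simp
            · rw [if_pos h1, if_pos ⟨h2, h1⟩]
          · rw [if_neg h1, if_neg (fun h => h1 h.2)]
      _ ≤ ∑ F ∈ S, t * (1 / ((d F : ℕ) : ℝ)) := by
          refine (norm_sum_le _ _).trans (Finset.sum_le_sum fun F hF => ?_)
          rw [hS, mem_filter, mem_powerset] at hF
          obtain ⟨f1, f2, f3⟩ := hF
          rw [norm_mul, norm_div, Complex.norm_natCast, Complex.norm_real, Real.norm_eq_abs]
          have h4 : ‖κ F (j.2 * (d F / j.1))‖ ≤ t := (hκn F f1 _).trans (hC3 F f2)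
          calc |C F| / (d F : ℝ) * ‖κ F (j.2 * (d F / j.1))‖
              ≤ 1 / (d F : ℝ) * t :=
                mul_le_mul (div_le_div_of_nonneg_right (hC1 F) (Nat.cast_nonneg _)) h4
                  (norm_nonneg _) (by positivity)
            _ = t * (1 / (d F : ℝ)) := mul_comm _ _
      _ = t * ∑ F ∈ S, 1 / ((d F : ℕ) : ℝ) := (Finset.mul_sum _ _ _).symm
      _ ≤ t * ((1 + Real.log D) / j.1) := by
          refine mul_le_mul_of_nonneg_left ?_ ht
          refine REX_div P hP D j.1 (by omega) S fun F hF => ?_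
          rw [hS, mem_filter, mem_powerset] at hF
          exact ⟨hF.1, (hC2 F hF.2.1).2, hF.2.2⟩
      _ = t * (1 + Real.log D) / j.1 := by ring
  · -- the formula
    intro y
    have h1 : ∀ F ∈ P.powerset, ((C F * rr K y F : ℝ) : ℂ) = ∑ j ∈ JJ D,
        if j.1 ∣ d F then (C F : ℂ) / (d F : ℂ) * κ F (j.2 * (d F / j.1)) *
          (GG K (fr j) * ex ((y : ℝ) * fr j)) else 0 := by
      intro F hF
      rw [mem_powerset] at hF
      by_cases hCF : C F = 0
      · rw [hCF, zero_mul, Complex.ofReal_zero]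
        symm
        refine Finset.sum_eq_zero fun j _ => ?_
        split_ifs
        · simp
        · rfl
      · have hdD : d F ≤ D := (hC2 F hCF).2
        rw [Complex.ofReal_mul, hrr y F hF,
          REX_reindex D (d F) (hd1 F hF) hdD
            (fun h => κ F h * GG K ((h : ℝ) / d F) * ex ((y : ℝ) * ((h : ℝ) / d F))),
          Finset.sum_filter, Finset.mul_sum, Finset.mul_sum]
        refine Finset.sum_congr rfl fun j hj => ?_
        by_cases hjd : j.1 ∣ d F
        · rw [if_pos hjd, if_pos hjd]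
          rw [JJ, mem_filter, mem_product, mem_Icc, mem_range] at hj
          obtain ⟨⟨⟨j1, j2⟩, j3⟩, j4, j5, j6⟩ := hj
          have hfr : (((j.2 * (d F / j.1) : ℕ) : ℝ) / (d F : ℝ)) = fr j := by
            obtain ⟨m, hm⟩ := hjd
            have hm0 : 0 < m := by
              rcases Nat.eq_zero_or_pos m with h | h
              · have := hd1 F hF
                rw [h, mul_zero] at hm
                omega
              · exact h
            rw [hm, Nat.mul_div_cancel_left _ (by omega)]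
            unfold fr
            push_cast
            have e1 : (m : ℝ) ≠ 0 := by exact_mod_cast hm0.ne'
            have e2 : (j.1 : ℝ) ≠ 0 := by
              have : j.1 ≠ 0 := by omega
              exact_mod_cast this
            field_simp
          rw [hfr]
          ring
        · rw [if_neg hjd, if_neg hjd]
          ring
    unfold RR
    rw [Complex.ofReal_sum, Finset.sum_congr rfl h1, Finset.sum_comm]
    refine Finset.sum_congr rfl fun j _ => ?_
    beta_reduce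
    rw [Finset.mul_sum, Finset.sum_mul]
    refine Finset.sum_congr rfl fun F _ => ?_
    split_ifs
    · ring
    · ring

end Pool.Agent.SY
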